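import Pool.Agent.MP_875478_co.Limit

set_option autoImplicit false

namespace Pool.Agent.Results.MP_875478_co.RandomGraphs

/-- `A` is a positive semidefinite real matrix whose off-diagonal nonzero pattern is `G` and
which has the strong Arnold property. -/
def SAPMatrix {n : ℕ} (G : SimpleGraph (Fin n)) (A : Matrix (Fin n) (Fin n) ℝ) : Prop :=
  A.PosSemidef ∧ (∀ i j, i ≠ j → (A i j ≠ 0 ↔ G.Adj i j)) ∧
    ∀ X : Matrix (Fin n) (Fin n) ℝ, X.transpose = X → (∀ i, X i i = 0) →
      (∀ i j, A i j * X i j = 0) → A * X = 0 → X = 0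

open Pool.Agent.MP_875478_co Filter in
theorem result (p : unitInterval) (h0 : 0 < (p : ℝ)) (h1 : (p : ℝ) < 1) (ε : ℝ) (hε : 0 < ε) :
    Filter.Tendsto (fun n : ℕ => (SimpleGraph.binomialRandom (Fin n) p).real
      {G | ∃ A B : Matrix (Fin n) (Fin n) ℝ, SAPMatrix G A ∧ SAPMatrix (compl G) B ∧
        (A.rank : ℝ) ≤ (1 - Real.sqrt p + ε) * n ∧
        (B.rank : ℝ) ≤ (1 - Real.sqrt (1 - p) + ε) * n ∧ A.rank + B.rank ≤ n})
      Filter.atTop (nhds 1) := by
  have hw := isP_bern h0.le h1.le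
  have hs : ∀ x : ℝ, 0 < x → x < 1 → x < √x := fun x a b =>
    Real.lt_sqrt_of_sq_lt (by nlinarith)
  have a1 := hs p h0 h1
  have a2 := hs (1 - p) (by linarith) (by linarith)
  set ε' := min ε ((√p + √(1 - p) - 1) / 2) with hε'
  have a3 : 0 < ε' := lt_min hε (by linarith)
  have a4 : ε' ≤ ε := min_le_left _ _
  have a5 : ε' ≤ (√p + √(1 - p) - 1) / 2 := min_le_right _ _
  refine tendsto_order.2 ⟨fun x hx => ?_, fun x hx => Eventually.of_forall fun n =>
    lt_of_le_of_lt MeasureTheory.measureReal_le_one hx⟩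
  have hδ : 0 < (1 - x) / 3 := by linarith
  filter_upwards [tendsto_fail h0 h1 a3 hδ,
    tendsto_fail (p := 1 - p) (by linarith) (by linarith) a3 hδ] with n b1 b2
  rw [← Ex_compl] at b2
  rw [real_eq_Ex]
  refine lt_of_lt_of_le ?_ (Ex_mono hw (f := fun ω => 1 - ind (¬ Low (gr ω) ((1 - √p + ε') * n)) -
    ind (¬ Low (gr fun e => !ω e) ((1 - √(1 - p) + ε') * n))) fun ω => ?_)
  · rw [Ex_sub, Ex_sub, Ex_const hw]; linarith
  · by_cases c1 : Low (gr ω) ((1 - √p + ε') * n)
    · by_cases c2 : Low (gr fun e => !ω e) ((1 - √(1 - p) + ε') * n)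
      · rw [ind_neg (not_not.2 c1), ind_neg (not_not.2 c2), ind_pos, sub_zero, sub_zero]
        rw [← gr_compl] at c2
        obtain ⟨A, hA, hA'⟩ := c1
        obtain ⟨B, hB, hB'⟩ := c2
        have hn : (0 : ℝ) ≤ n := Nat.cast_nonneg _
        refine ⟨A, B, hA, hB, hA'.trans (mul_le_mul_of_nonneg_right (by linarith) hn),
          hB'.trans (mul_le_mul_of_nonneg_right (by linarith) hn), ?_⟩
        have : (A.rank : ℝ) + B.rank ≤ n := by nlinarith
        exact_mod_cast this
      · rw [ind_pos c2]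
        exact le_trans (by linarith [ind_nonneg (¬ Low (gr ω) ((1 - √p + ε') * n))]) (ind_nonneg _)
    · rw [ind_pos c1]
      have := ind_nonneg (¬ Low (gr fun e => !ω e) ((1 - √(1 - p) + ε') * n))
      exact le_trans (by linarith) (ind_nonneg _)

end Pool.Agent.Results.MP_875478_co.RandomGraphs
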