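import Pool.Agent.MP_875478_co.WElim

set_option autoImplicit false

namespace Pool.Agent.Results.MP_875478_co.WeakBound

/-- `A` is a positive semidefinite real matrix whose off-diagonal nonzero pattern is `G` and
which has the strong Arnold property. -/
def SAPMatrix {n : ℕ} (G : SimpleGraph (Fin n)) (A : Matrix (Fin n) (Fin n) ℝ) : Prop :=
  A.PosSemidef ∧ (∀ i j, i ≠ j → (A i j ≠ 0 ↔ G.Adj i j)) ∧
    ∀ X : Matrix (Fin n) (Fin n) ℝ, X.transpose = X → (∀ i, X i i = 0) →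
      (∀ i j, A i j * X i j = 0) → A * X = 0 → X = 0

open Pool.Agent.MP_875478_co in
theorem result (n : ℕ) (G : SimpleGraph (Fin n)) :
    ∃ A B : Matrix (Fin n) (Fin n) ℝ, SAPMatrix G A ∧ SAPMatrix (compl G) B ∧
      (A.rank : ℝ) + (B.rank : ℝ) ≤ (4 + Real.sqrt 6) / 5 * n + 1 := by
  classical
  rcases Nat.eq_zero_or_pos n with rfl | hn
  · exact ⟨0, 0, ⟨Matrix.PosSemidef.zero, fun i => i.elim0, fun _ _ _ _ _ => Subsingleton.elim _ _⟩,
      ⟨Matrix.PosSemidef.zero, fun i => i.elim0, fun _ _ _ _ _ => Subsingleton.elim _ _⟩, by simp⟩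
  obtain ⟨a, b, g, ⟨κ, _, V, a1, a2⟩, ⟨κ', _, V', b1, b2⟩, h1, h2⟩ :=
    psi_add_psi G (by simpa using hn)
  obtain ⟨B, hB, hB'⟩ := WRep.exists_isNu (G := Gᶜ) (V := V) (by rwa [compl_compl])
  obtain ⟨A, hA, hA'⟩ := b2.exists_isNu
  refine ⟨A, B, hA, hB, ?_⟩
  rw [Fintype.card_fin] at h1 h2
  have h3 : A.rank + B.rank ≤ n + g + 1 := by omega
  have h4 : (A.rank : ℝ) + B.rank ≤ n + g + 1 := by exact_mod_cast h3
  have h5 : 5 * (g : ℝ) ^ 2 + 2 * g * n ≤ (n : ℝ) ^ 2 := by exact_mod_cast h2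
  have h6 : 5 * (g : ℝ) + n ≤ Real.sqrt 6 * n := by
    refine (abs_le_of_sq_le_sq' ?_ (by positivity)).2
    rw [mul_pow, Real.sq_sqrt (by norm_num)]
    nlinarith
  linarith

end Pool.Agent.Results.MP_875478_co.WeakBound
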