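import Pool.Agent.MP_875478_co.WCMain

set_option autoImplicit false

namespace Pool.Agent.Results.MP_875478_co.WeaklyChordal

/-- `A` is a positive semidefinite real matrix whose off-diagonal nonzero pattern is `G` and
which has the strong Arnold property. -/
def SAPMatrix {n : ℕ} (G : SimpleGraph (Fin n)) (A : Matrix (Fin n) (Fin n) ℝ) : Prop :=
  A.PosSemidef ∧ (∀ i j, i ≠ j → (A i j ≠ 0 ↔ G.Adj i j)) ∧
    ∀ X : Matrix (Fin n) (Fin n) ℝ, X.transpose = X → (∀ i, X i i = 0) →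
      (∀ i j, A i j * X i j = 0) → A * X = 0 → X = 0

/-- neither `G` nor its complement has an induced cycle of length at least five -/
def IsWeaklyChordal {n : ℕ} (G : SimpleGraph (Fin n)) : Prop :=
  ∀ k, 5 ≤ k → ¬ (SimpleGraph.cycleGraph k).IsIndContained G ∧
    ¬ (SimpleGraph.cycleGraph k).IsIndContained (compl G)

open Pool.Agent.MP_875478_co in
theorem result (n : ℕ) (G : SimpleGraph (Fin n)) (hG : IsWeaklyChordal G) :
    ∃ A B : Matrix (Fin n) (Fin n) ℝ, SAPMatrix G A ∧ SAPMatrix (compl G) B ∧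
      A.rank + B.rank ≤ n + 2 := by
  classical
  have h1 : HoleFree G := fun k => ⟨fun e => (hG (k + 5) (by omega)).1 ⟨e⟩⟩
  have h2 : HoleFree Gᶜ := fun k => ⟨fun e => (hG (k + 5) (by omega)).2 ⟨e⟩⟩
  have hex : ∃ r, Thin G r Finset.univ := ⟨_, thin_card G⟩
  obtain ⟨κ, _, V, a, b⟩ := psi_of_thin (Nat.find_spec hex)
  obtain ⟨B, hB, hB'⟩ := WRep.exists_isNu (G := Gᶜ) (V := V) (by rwa [compl_compl])
  have key : Psi Gᶜ (n - Nat.find hex) ∧ Nat.find hex ≤ n := by
    rcases h : Nat.find hex with _ | r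
    · simpa using psi_of_indep (H := Gᶜ) ∅ (by simp)
    · simpa using psi_of_not_thin h1 h2 (Nat.find_min hex (m := r) (by omega))
  obtain ⟨⟨κ', _, V', a', b'⟩, c⟩ := key
  obtain ⟨A, hA, hA'⟩ := b'.exists_isNu
  exact ⟨A, B, hA, hB, by omega⟩

end Pool.Agent.Results.MP_875478_co.WeaklyChordal
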